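import Pool.Agent.H.MP_034cab_an.A

set_option autoImplicit false

namespace Pool.Agent.H.MP_4d0082_an
open Filter Topology Real MeasureTheory Pool.Agent.H.MP_f44585_an Metric
  Pool.Agent.H.MP_0447a2_lc Pool.Agent.H.MP_034cab_an ComplexConjugate InnerProductSpace ContinuousLinearMap

noncomputable abbrev H := lp (fun _ : ℕ => ℂ) 2

lemma mem2 (u : ℕ → ℂ) : Memℓp u 2 ↔ Summable fun n => ‖u n‖ ^ 2 := by
  rw [memℓp_gen_iff (by norm_num)]; simp

lemma n2 (x : H) : HasSum (fun n => ‖x n‖ ^ 2) (‖x‖ ^ 2) := by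
  simpa using lp.hasSum_norm (p := 2) (by norm_num) x

lemma rd (f : H) : Rd f := fun r r0 r1 =>
  Summable.of_nonneg_of_le (fun _ => by positivity)
    (fun n => mul_le_mul_of_nonneg_right (lp.norm_apply_le_norm (by norm_num) f n) (by positivity))
    ((summable_geometric_of_lt_one r0 r1).mul_left ‖f‖)

def shf (x : ℕ → ℂ) : ℕ → ℂ
  | 0 => 0
  | n + 1 => x n

noncomputable def S0 : H →ₗᵢ[ℂ] H where
  toFun x := ⟨shf x, (mem2 _).2 ((summable_nat_add_iff 1).1 (n2 x).summable)⟩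
  map_add' x y := lp.ext (funext fun n => by cases n <;> simp [shf])
  map_smul' c x := lp.ext (funext fun n => by cases n <;> simp [shf])
  norm_map' x := by
    rw [← sq_eq_sq₀ (norm_nonneg _) (norm_nonneg _)]
    refine (n2 _).unique ((hasSum_nat_add_iff' 1).1 ?_)
    simpa [shf] using n2 x

noncomputable def S : H →L[ℂ] H := S0.toContinuousLinearMap

lemma S_inner (x y : H) : ⟪S x, S y⟫_ℂ = ⟪x, y⟫_ℂ := S0.inner_map_map x y

lemma S_norm (x : H) : ‖S x‖ = ‖x‖ := S0.norm_map x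

lemma ps_S (f : H) {z : ℂ} (hz : ‖z‖ < 1) : PS (S f) z = z * PS f z := by
  rw [PS, ((rd (S f)).sum hz).of_norm.tsum_eq_zero_add, PS, ← tsum_mul_left]
  have : (S f : ℕ → ℂ) = shf f := rfl
  simp only [this, shf, zero_mul, zero_add]
  exact tsum_congr fun n => by ring

noncomputable def k (z : ℂ) : H := if h : ‖z‖ < 1 then ⟨fun n => conj z ^ n, (mem2 _).2 (by
  simp only [norm_pow, Complex.norm_conj, fun n => pow_right_comm ‖z‖ n 2]
  exact summable_geometric_of_lt_one (by positivity) (pow_lt_one₀ (norm_nonneg _) h two_ne_zero))⟩ else 0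

lemma k_app {z : ℂ} (hz : ‖z‖ < 1) (n : ℕ) : k z n = conj z ^ n := by simp [k, hz]

lemma ik {z : ℂ} (hz : ‖z‖ < 1) (f : H) : ⟪k z, f⟫_ℂ = PS f z := by
  rw [lp.inner_eq_tsum, PS]
  exact tsum_congr fun n => by simp [k_app hz]

lemma ps_k {p z : ℂ} (hp : ‖p‖ < 1) (hz : ‖z‖ < 1) : PS (k p) z * (1 - conj p * z) = 1 := by
  have : ‖conj p * z‖ < 1 := by
    rw [norm_mul, Complex.norm_conj]; exact mul_lt_one_of_nonneg_of_lt_one_left (norm_nonneg _) hp hz.le
  rw [PS]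
  simp only [k_app hp, ← mul_pow]
  exact (summable_geometric_of_norm_lt_one this).tsum_pow_mul_one_sub

lemma ps_one {z : ℂ} (hz : ‖z‖ < 1) : PS (k 0) z = 1 := by simpa using ps_k (p := 0) (by simp) hz

lemma ps_add (f g : H) {z : ℂ} (hz : ‖z‖ < 1) : PS (f + g : H) z = PS f z + PS g z := by
  simp only [← ik hz, inner_add_right]

lemma ps_sub (f g : H) {z : ℂ} (hz : ‖z‖ < 1) : PS (f - g : H) z = PS f z - PS g z := by
  simp only [← ik hz, inner_sub_right]

lemma ps_smul (c : ℂ) (f : H) {z : ℂ} (hz : ‖z‖ < 1) : PS (c • f : H) z = c * PS f z := by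
  simp only [← ik hz, inner_smul_right]

lemma ps_zero (z : ℂ) : PS (0 : H) z = 0 := by simp [PS]

lemma ps_an (f : H) : AnalyticOnNhd ℂ (PS f) (ball 0 1) :=
  DifferentiableOn.analyticOnNhd (fun _ hz =>
    ((rd f).der (mem_ball_zero_iff.1 hz)).differentiableAt.differentiableWithinAt) isOpen_ball

lemma lim (f : H) : Tendsto (fun x : ℝ => ∫ t in (0 : ℝ)..1, ‖PS f (√x * ee t)‖ ^ 2) (𝓝[<] 1) (𝓝 (‖f‖ ^ 2)) := by
  have t := tendsto_tsum_of_dominated_convergence (𝓕 := 𝓝[<] (1 : ℝ)) (f := fun x n => ‖f n‖ ^ 2 * x ^ n)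
    (g := fun n => ‖f n‖ ^ 2) (n2 f).summable (fun n => by
      have : Tendsto (fun x : ℝ => ‖f n‖ ^ 2 * x ^ n) (𝓝 1) (𝓝 (‖f n‖ ^ 2 * 1 ^ n)) := Continuous.tendsto (by fun_prop) 1
      rw [one_pow, mul_one] at this
      exact this.mono_left nhdsWithin_le_nhds) (by
      filter_upwards [Ioo_mem_nhdsLT one_pos] with x hx n
      rw [Real.norm_of_nonneg (by have := hx.1; positivity)]
      exact mul_le_of_le_one_right (sq_nonneg _) (pow_le_one₀ hx.1.le hx.2.le))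
  rw [(n2 f).tsum_eq] at t
  refine t.congr' ?_
  filter_upwards [Ioo_mem_nhdsLT one_pos] with x hx
  have := (rd f).pars (rd f) hx.1.le hx.2
  simp only [Complex.mul_conj, Complex.normSq_eq_norm_sq] at this
  rw [intervalIntegral.integral_ofReal, PS] at this
  exact_mod_cast this.symm

lemma le4 {u a b c d : H} (h : ∀ z : ℂ, ‖z‖ < 1 →
    ‖PS u z‖ ^ 2 ≤ ‖PS a z‖ ^ 2 + ‖PS b z‖ ^ 2 + ‖PS c z‖ ^ 2 + ‖PS d z‖ ^ 2) :
    ‖u‖ ^ 2 ≤ ‖a‖ ^ 2 + ‖b‖ ^ 2 + ‖c‖ ^ 2 + ‖d‖ ^ 2 := by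
  refine le_of_tendsto_of_tendsto (lim u) ((((lim a).add (lim b)).add (lim c)).add (lim d)) ?_
  filter_upwards [Ioo_mem_nhdsLT one_pos] with x hx
  have ct : ∀ f : H, Continuous fun t => ‖PS f (√x * ee t)‖ ^ 2 := fun f => ((rd f).cont hx.1.le hx.2).norm.pow 2
  have i := fun f : H => (ct f).intervalIntegrable (μ := volume) 0 1
  rw [← intervalIntegral.integral_add (i a) (i b), ← intervalIntegral.integral_add ((i a).add (i b)) (i c),
    ← intervalIntegral.integral_add (((i a).add (i b)).add (i c)) (i d)]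
  refine intervalIntegral.integral_mono zero_le_one (i u) ((((i a).add (i b)).add (i c)).add (i d)) fun t => h _ ?_
  rw [norm_mul, ee_norm, mul_one, Complex.norm_real, Real.norm_of_nonneg (sqrt_nonneg x), Real.sqrt_lt' one_pos, one_pow]
  exact hx.2

lemma le1 {u a : H} (h : ∀ z : ℂ, ‖z‖ < 1 → ‖PS u z‖ ≤ ‖PS a z‖) : ‖u‖ ≤ ‖a‖ := by
  have := le4 (u := u) (a := a) (b := 0) (c := 0) (d := 0) fun z hz => by
    rw [ps_zero, norm_zero]
    linarith [pow_le_pow_left₀ (norm_nonneg _) (h z hz) 2]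
  rw [norm_zero] at this
  exact (sq_le_sq₀ (norm_nonneg _) (norm_nonneg _)).1 (by linarith)

lemma ps_ext {f g : H} (h : ∀ z : ℂ, ‖z‖ < 1 → PS f z = PS g z) : f = g := by
  have := le1 (u := f - g) (a := 0) fun z hz => by rw [ps_sub _ _ hz, h z hz, ps_zero]; simp
  rwa [norm_zero, norm_le_zero_iff, sub_eq_zero] at this

/-- hyponormality of multipliers -/
lemma hyp {f G F g : H} (h : ∀ z : ℂ, ‖z‖ < 1 → PS f z * PS G z = PS F z * PS g z) :
    2 * (⟪f, G⟫_ℂ).re ≤ ‖F‖ ^ 2 + ‖g‖ ^ 2 := by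
  have := le4 (u := f + G) (a := f) (b := G) (c := F) (d := g) fun z hz => by
    have h1 := congrArg norm (h z hz)
    rw [norm_mul, norm_mul] at h1
    rw [ps_add _ _ hz]
    have h2 := pow_le_pow_left₀ (norm_nonneg _) (norm_add_le (PS f z) (PS G z)) 2
    nlinarith [sq_nonneg (‖PS F z‖ - ‖PS g z‖)]
  rw [norm_add_sq (𝕜 := ℂ)] at this
  simp only [RCLike.re_to_complex] at this
  linarith

lemma ps_B (f : H) {z : ℂ} (hz : ‖z‖ < 1) : z * PS (adjoint S f) z = PS f z - PS f 0 := by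
  have h1 : k z = k 0 + conj z • S (k z) := lp.ext (funext fun n => by
    have : (S (k z) : ℕ → ℂ) = shf (k z) := rfl
    cases n <;> simp [this, shf, k_app hz, k_app (z := 0) (by simp), pow_succ'])
  rw [← ik hz, ← ik hz, ← ik (z := 0) (by simp), adjoint_inner_right]
  conv_rhs => rw [h1]
  simp [inner_add_left, inner_smul_left, mul_comm]

/-- equality case of hyponormality propagates along the shift -/
lemma prop {N : H → Prop} {X : H →L[ℂ] H} (nS : ∀ g, N g → N (S g)) (nA : ∀ (t : ℂ) g g', N g → N g' → N (g + t • g'))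
    (hc : ∀ g, N g → X (S g) = S (X g)) (hy : ∀ f g, N f → N g → 2 * (⟪f, X g⟫_ℂ).re ≤ ‖X f‖ ^ 2 + ‖g‖ ^ 2)
    {ω : H} (nω : N ω) (hω : ∀ g, N g → ⟪S g, ω⟫_ℂ = 0) (n : ℕ) :
    ∀ f y, N f → N y → ‖X f‖ ≤ ‖y‖ → (∀ g, N g → ⟪y, g⟫_ℂ = ⟪f, X g⟫_ℂ) → ⟪(S ^ (n + 1)) f, X ω⟫_ℂ = 0 := by
  have step : ∀ f y, N f → N y → ‖X f‖ ≤ ‖y‖ → (∀ g, N g → ⟪y, g⟫_ℂ = ⟪f, X g⟫_ℂ) →
      ∀ g, N g → ⟪S y, g⟫_ℂ = ⟪S f, X g⟫_ℂ := by
    intro f y nf ny l e g ng
    set u := ⟪S f, X g⟫_ℂ - ⟪S y, g⟫_ℂ with hu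
    have key : ∀ t : ℂ, 2 * (t * u).re ≤ ‖t‖ ^ 2 * ‖g‖ ^ 2 := fun t => by
      have h1 := hy (S f) (S y + t • g) (nS f nf) (nA t _ _ (nS y ny) ng)
      rw [hc f nf, S_norm, map_add, map_smul, hc y ny, inner_add_right, S_inner, ← e y ny, inner_smul_right,
        norm_add_sq (𝕜 := ℂ), S_norm, norm_smul, inner_smul_right, inner_self_eq_norm_sq_to_K] at h1
      have h2 := pow_le_pow_left₀ (norm_nonneg _) l 2
      have h3 : ((‖y‖ : ℂ) ^ 2).re = ‖y‖ ^ 2 := by norm_cast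
      simp only [RCLike.re_to_complex, Complex.add_re, Complex.coe_algebraMap, h3] at h1
      rw [hu, mul_sub, Complex.sub_re]
      nlinarith
    have h4 := key ((1 / (‖g‖ ^ 2 + 1) : ℝ) * conj u)
    rw [mul_assoc, Complex.conj_mul', ← Complex.ofReal_pow, ← Complex.ofReal_mul, Complex.ofReal_re, norm_mul,
      Complex.norm_conj, Complex.norm_real, Real.norm_of_nonneg (by positivity)] at h4
    have p : 0 < ‖g‖ ^ 2 + 1 := by positivity
    have h5 : ‖u‖ ^ 2 * (‖g‖ ^ 2 + 2) ≤ 0 := by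
      have := mul_le_mul_of_nonneg_left h4 (sq_nonneg (‖g‖ ^ 2 + 1))
      have e1 : (‖g‖ ^ 2 + 1) ^ 2 * (2 * (1 / (‖g‖ ^ 2 + 1) * ‖u‖ ^ 2)) = 2 * (‖g‖ ^ 2 + 1) * ‖u‖ ^ 2 := by field_simp
      have e2 : (‖g‖ ^ 2 + 1) ^ 2 * ((1 / (‖g‖ ^ 2 + 1) * ‖u‖) ^ 2 * ‖g‖ ^ 2) = ‖u‖ ^ 2 * ‖g‖ ^ 2 := by field_simp
      rw [e1, e2] at this
      linarith
    have h6 : ‖u‖ ^ 2 = 0 := le_antisymm (nonpos_of_mul_nonpos_left h5 (by positivity)) (sq_nonneg _)
    rw [pow_eq_zero_iff two_ne_zero, norm_eq_zero, hu, sub_eq_zero] at h6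
    exact h6.symm
  induction n with
  | zero => exact fun f y nf ny l e => by rw [zero_add, pow_one, ← step f y nf ny l e ω nω, hω y ny]
  | succ n ih =>
    intro f y nf ny l e
    rw [pow_succ, ContinuousLinearMap.mul_apply]
    exact ih (S f) (S y) (nS f nf) (nS y ny) (by rwa [hc f nf, S_norm, S_norm]) (step f y nf ny l e)

/-- finite rank gives a rational function -/
lemma rat {x a b : H} (h : ∀ f, ⟪a, f⟫_ℂ = 0 → ⟪b, f⟫_ℂ = 0 → ∀ n, ⟪(S ^ (n + 1)) f, x⟫_ℂ = 0) :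
    ∃ P Q : Polynomial ℂ, Q ≠ 0 ∧ ∀ z : ℂ, ‖z‖ < 1 → Q.eval z * PS x z = P.eval z := by
  classical
  let v : Fin 3 → H := ![adjoint S x, adjoint S (adjoint S x), adjoint S (adjoint S (adjoint S x))]
  have hv : ∀ i, v i ∈ Submodule.span ℂ ({a, b} : Set H) := by
    intro i
    haveI : FiniteDimensional ℂ (Submodule.span ℂ ({a, b} : Set H)) :=
      FiniteDimensional.span_of_finite ℂ (Set.toFinite _)
    rw [← Submodule.orthogonal_orthogonal (Submodule.span ℂ ({a, b} : Set H)), Submodule.mem_orthogonal]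
    intro f hf
    rw [Submodule.mem_orthogonal] at hf
    have := h f (hf a (Submodule.subset_span (by simp))) (hf b (Submodule.subset_span (by simp)))
    fin_cases i
    · simpa [v, adjoint_inner_right] using this 0
    · simpa [v, adjoint_inner_right, pow_succ] using this 1
    · simpa [v, adjoint_inner_right, pow_succ] using this 2
  have nl : ¬LinearIndependent ℂ v := fun li => by
    have := linearIndependent_le_span_aux' v li {a, b} (by rintro _ ⟨i, rfl⟩; exact hv i)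
    have h2 : Fintype.card ({a, b} : Set H) ≤ 2 := by
      rw [← Set.toFinset_card]; simpa using Finset.card_le_two (a := a) (b := b)
    simp only [Fintype.card_fin] at this
    omega
  obtain ⟨c, hc, i, hi⟩ := Fintype.not_linearIndependent_iff.1 nl
  refine ⟨Polynomial.C (PS x 0) * (Polynomial.C (c 0) * Polynomial.X ^ 2 + Polynomial.C (c 1) * Polynomial.X +
    Polynomial.C (c 2)) + Polynomial.X * (Polynomial.C (c 1 * PS (v 0) 0) * Polynomial.X +
    Polynomial.C (c 2 * PS (v 0) 0) + Polynomial.C (c 2 * PS (v 1) 0) * Polynomial.X),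
    Polynomial.C (c 0) * Polynomial.X ^ 2 + Polynomial.C (c 1) * Polynomial.X + Polynomial.C (c 2), fun h0 => hi ?_,
    fun z hz => ?_⟩
  · have h2 := congrArg (Polynomial.coeff · 2) h0
    have h1 := congrArg (Polynomial.coeff · 1) h0
    have h3 := congrArg (Polynomial.coeff · 0) h0
    simp [Polynomial.coeff_X, Polynomial.coeff_C] at h1 h2 h3
    fin_cases i <;> simpa
  · have e := congrArg (fun f : H => PS f z) hc
    simp only [Fin.sum_univ_three, ps_add _ _ hz, ps_smul _ _ hz, ps_zero] at e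
    have b0 : z * PS (v 0) z = PS x z - PS x 0 := ps_B x hz
    have b1 : z * PS (v 1) z = PS (v 0) z - PS (v 0) 0 := ps_B _ hz
    have b2 : z * PS (v 2) z = PS (v 1) z - PS (v 1) 0 := ps_B _ hz
    simp only [Polynomial.eval_add, Polynomial.eval_mul, Polynomial.eval_C, Polynomial.eval_X, Polynomial.eval_pow]
    linear_combination z ^ 3 * e - (c 0 * z ^ 2 + c 1 * z + c 2) * b0 - (c 1 * z ^ 2 + c 2 * z) * b1 - c 2 * z ^ 2 * b2

end Pool.Agent.H.MP_4d0082_an
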