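import Pool.Agent.H.MP_4d0082_an.A

set_option autoImplicit false

namespace Pool.Agent.H.MP_4d0082_an
open Filter Topology Metric Pool.Agent.H.MP_034cab_an ComplexConjugate InnerProductSpace ContinuousLinearMap

lemma zp {f g : ℂ → ℂ} (hf : AnalyticOnNhd ℂ f (ball 0 1)) (hg : AnalyticOnNhd ℂ g (ball 0 1))
    (h : ∀ z : ℂ, ‖z‖ < 1 → f z * g z = 0) (h0 : ∃ z : ℂ, ‖z‖ < 1 ∧ f z ≠ 0) (z : ℂ) (hz : ‖z‖ < 1) : g z = 0 := by
  obtain ⟨w, hw, hw'⟩ := h0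
  exact (hf.eq_zero_or_eq_zero_of_mul_eq_zero hg (fun z hz => h z (mem_ball_zero_iff.1 hz))
    (convex_ball 0 1).isPreconnected).resolve_left (fun h => hw' (h w (mem_ball_zero_iff.2 hw))) z (mem_ball_zero_iff.2 hz)

variable {φ ψ : ℂ → ℂ}

lemma van (hd : AnalyticOnNhd ℂ φ (ball 0 1)) (hm : ∀ z : ℂ, ‖z‖ < 1 → ‖φ z‖ < 1)
    (nc : ¬∃ w, ∀ z ∈ ball (0 : ℂ) 1, φ z = w) {F : ℂ → ℂ} (hF : AnalyticOnNhd ℂ F (ball 0 1))
    (h : ∀ a : ℂ, ‖a‖ < 1 → a * F (φ a) = 0) (z : ℂ) (hz : ‖z‖ < 1) : F z = 0 := by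
  have h1 := zp (f := fun a => a) (g := fun a => F (φ a)) analyticOnNhd_id
    (hF.comp hd fun z hz => mem_ball_zero_iff.2 (hm z (mem_ball_zero_iff.1 hz))) h ⟨1 / 2, by norm_num, by norm_num⟩
  have op := (hd.is_constant_or_isOpen (convex_ball 0 1).isPreconnected).resolve_left nc _ subset_rfl isOpen_ball
  refine hF.eqOn_zero_of_preconnected_of_eventuallyEq_zero (convex_ball 0 1).isPreconnected
    (mem_ball_zero_iff.2 (hm 0 (by simp))) ?_ (mem_ball_zero_iff.2 hz)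
  filter_upwards [op.mem_nhds ⟨0, by simp, rfl⟩]
  rintro _ ⟨a, ha, rfl⟩
  exact h1 a (mem_ball_zero_iff.1 ha)

lemma dense_of {T : H →L[ℂ] H} (h : ∀ f, adjoint T f = 0 → f = 0) : DenseRange (T : H →ₗ[ℂ] H) := by
  have : T.range.topologicalClosure = ⊤ := by
    rw [Submodule.topologicalClosure_eq_top_iff, orthogonal_range, LinearMap.ker_eq_bot']
    exact h
  exact Submodule.dense_iff_topologicalClosure_eq_top.2 this

lemma setup (hd : AnalyticOnNhd ℂ φ (ball 0 1)) (hm : ∀ z : ℂ, ‖z‖ < 1 → ‖φ z‖ < 1)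
    (nc : ¬∃ w, ∀ z ∈ ball (0 : ℂ) 1, φ z = w) {T : H →L[ℂ] H}
    (hT : ∀ (f : H) (z : ℂ), ‖z‖ < 1 → PS (T f) z = ψ z * PS f (φ z)) (hN : IsStarNormal T)
    (h0 : ∃ z : ℂ, ‖z‖ < 1 ∧ ψ z ≠ 0) : ∃ (U : H ≃ₗᵢ[ℂ] H) (Φ : H →L[ℂ] H), (∀ f, U (T f) = adjoint T f) ∧
      (∀ (g : H) (z : ℂ), ‖z‖ < 1 → PS (Φ g) z = φ z * PS g z) ∧ ∀ g : H, PS g (φ 0) = 0 → ∀ a : ℂ, ‖a‖ < 1 →
        a * PS (U (adjoint Φ (U.symm g))) (φ a) = PS g (φ a) := by
  have nm := isStarNormal_iff_norm_eq_adjoint.1 hN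
  have aψ : AnalyticOnNhd ℂ ψ (ball 0 1) := (ps_an (T (k 0))).congr isOpen_ball fun z hz => by
    have hz := mem_ball_zero_iff.1 hz
    rw [hT _ z hz, ps_one (hm z hz), mul_one]
  have cf : ∀ f : H, AnalyticOnNhd ℂ (fun a => PS f (φ a)) (ball 0 1) := fun f =>
    (ps_an f).comp hd fun z hz => mem_ball_zero_iff.2 (hm z (mem_ball_zero_iff.1 hz))
  have inj : ∀ f, T f = 0 → f = 0 := fun f hf => ps_ext fun z hz => by
    rw [ps_zero]
    refine van hd hm nc (ps_an f) (fun a ha => ?_) z hz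
    rw [zp aψ (cf f) (fun z hz => by rw [← hT f z hz, hf, ps_zero]) h0 a ha, mul_zero]
  have d1 := dense_of (T := T) fun f hf => inj f (by rw [← norm_eq_zero, nm, hf, norm_zero])
  have d2 := dense_of (T := adjoint T) (by rwa [adjoint_adjoint])
  have bd : ∃ C, ∀ x, ‖((T ∘L S : H →L[ℂ] H) : H →ₗ[ℂ] H) x‖ ≤ C * ‖(T : H →ₗ[ℂ] H) x‖ := ⟨1, fun x => by
    rw [one_mul]
    refine le1 fun z hz => ?_
    change ‖PS (T (S x)) z‖ ≤ ‖PS (T x) z‖
    rw [hT _ z hz, hT _ z hz, ps_S _ (hm z hz), norm_mul, norm_mul, norm_mul]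
    gcongr
    exact mul_le_of_le_one_left (norm_nonneg _) (hm z hz).le⟩
  set Φ := ((T ∘L S : H →L[ℂ] H) : H →ₗ[ℂ] H).extendOfNorm (T : H →ₗ[ℂ] H)
  have eΦ : ∀ f, Φ (T f) = T (S f) := fun f => LinearMap.extendOfNorm_eq d1 bd f
  set U := (LinearEquiv.refl ℂ H).extendOfIsometry (T : H →ₗ[ℂ] H) (adjoint T : H →ₗ[ℂ] H) d1 d2 fun x => (nm x).symm
  have eU : ∀ f, U (T f) = adjoint T f := fun f =>
    (LinearEquiv.refl ℂ H).extendOfIsometry_eq (T : H →ₗ[ℂ] H) (adjoint T : H →ₗ[ℂ] H) d1 d2 (fun x => (nm x).symm) f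
  refine ⟨U, Φ, eU, fun g z hz => ?_, fun g hg => ?_⟩
  · simp only [← ik hz]
    refine d1.induction_on g (isClosed_eq (by fun_prop) (by fun_prop)) fun f => ?_
    change ⟪k z, Φ (T f)⟫_ℂ = φ z * ⟪k z, T f⟫_ℂ
    rw [eΦ, ik hz, ik hz, hT _ z hz, hT _ z hz, ps_S _ (hm z hz)]; ring
  · have e : T (U (adjoint Φ (U.symm g))) = adjoint S (T g) := ext_inner_left ℂ fun h => by
      rw [← adjoint_inner_left, ← eU, U.inner_map_map, adjoint_inner_right, eΦ, ← U.inner_map_map, eU,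
        U.apply_symm_apply, adjoint_inner_left, adjoint_inner_right]
    intro a ha
    rw [← sub_eq_zero]
    refine zp aψ (g := fun a => a * PS (U (adjoint Φ (U.symm g))) (φ a) - PS g (φ a))
      ((analyticOnNhd_id.mul (cf _)).sub (cf g)) (fun z hz => ?_) h0 a ha
    have := ps_B (T g) hz
    rw [← e, hT _ z hz, hT _ z hz, hT _ 0 (by simp), hg] at this
    linear_combination this

lemma two (hd : AnalyticOnNhd ℂ φ (ball 0 1)) (hm : ∀ z : ℂ, ‖z‖ < 1 → ‖φ z‖ < 1)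
    (nc : ¬∃ w, ∀ z ∈ ball (0 : ℂ) 1, φ z = w) {X : H →L[ℂ] H}
    (hX : ∀ g : H, PS g (φ 0) = 0 → ∀ a : ℂ, ‖a‖ < 1 → a * PS (X g) (φ a) = PS g (φ a)) :
    (∀ g : H, PS g (φ 0) = 0 → X (S g) = S (X g)) ∧ ∀ f g : H, PS f (φ 0) = 0 → PS g (φ 0) = 0 →
      2 * (⟪f, X g⟫_ℂ).re ≤ ‖X f‖ ^ 2 + ‖g‖ ^ 2 := by
  have hp := hm 0 (by simp)
  refine ⟨fun g hg => ps_ext fun z hz => ?_, fun f g hf hg => hyp fun z hz => ?_⟩
  · rw [← sub_eq_zero]
    refine van hd hm nc ((ps_an (X (S g))).sub (ps_an (S (X g)))) (fun a ha => ?_) z hz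
    have h1 := hX (S g) (by rw [ps_S _ hp, hg, mul_zero]) a ha
    have h2 := hX g hg a ha
    rw [Pi.sub_apply]
    rw [ps_S _ (hm a ha)] at h1 ⊢
    linear_combination h1 - φ a * h2
  · rw [← sub_eq_zero]
    refine van hd hm nc (((ps_an f).mul (ps_an (X g))).sub ((ps_an (X f)).mul (ps_an g))) (fun a ha => ?_) z hz
    rw [Pi.sub_apply]
    linear_combination PS f (φ a) * hX g hg a ha - PS g (φ a) * hX f hf a ha

lemma nle {f G : H} (h : 2 * (⟪f, f⟫_ℂ).re ≤ ‖G‖ ^ 2 + ‖f‖ ^ 2) : ‖f‖ ≤ ‖G‖ := by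
  rw [inner_self_eq_norm_sq_to_K] at h
  have h3 : ((‖f‖ : ℂ) ^ 2).re = ‖f‖ ^ 2 := by norm_cast
  simp only [Complex.coe_algebraMap, h3] at h
  exact (sq_le_sq₀ (norm_nonneg _) (norm_nonneg _)).1 (by linarith)

/-- the symbol and its inverse are rational -/
lemma both (hd : AnalyticOnNhd ℂ φ (ball 0 1)) (hm : ∀ z : ℂ, ‖z‖ < 1 → ‖φ z‖ < 1)
    (nc : ¬∃ w, ∀ z ∈ ball (0 : ℂ) 1, φ z = w) {T : H →L[ℂ] H}
    (hT : ∀ (f : H) (z : ℂ), ‖z‖ < 1 → PS (T f) z = ψ z * PS f (φ z)) (hN : IsStarNormal T)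
    (h0 : ∃ z : ℂ, ‖z‖ < 1 ∧ ψ z ≠ 0) :
    (∃ P Q : Polynomial ℂ, Q ≠ 0 ∧ ∀ z : ℂ, ‖z‖ < 1 → Q.eval z * φ z = P.eval z) ∧
      ∃ R Q : Polynomial ℂ, Q ≠ 0 ∧ ∀ z : ℂ, ‖z‖ < 1 → z * R.eval (φ z) = Q.eval (φ z) := by
  obtain ⟨U, Φ, -, hΦ, hX⟩ := setup hd hm nc hT hN h0
  set X : H →L[ℂ] H := (U : H →L[ℂ] H) ∘L adjoint Φ ∘L (U.symm : H →L[ℂ] H)
  have eX : ∀ g, X g = U (adjoint Φ (U.symm g)) := fun g => rfl
  obtain ⟨x1, x2⟩ := two hd hm nc (X := X) hX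
  have hp := hm 0 (by simp)
  have ad : ∀ f g, ⟪U (Φ f), g⟫_ℂ = ⟪U f, X g⟫_ℂ := fun f g => by
    rw [eX, U.inner_map_map, adjoint_inner_right, ← U.inner_map_map (Φ f), U.apply_symm_apply]
  have y2 : ∀ f g : H, 2 * (⟪f, Φ g⟫_ℂ).re ≤ ‖Φ f‖ ^ 2 + ‖g‖ ^ 2 := fun f g => hyp fun z hz => by
    rw [hΦ _ z hz, hΦ _ z hz]; ring
  have c1 : ∀ f, ⟪X (k (φ 0)), U f⟫_ℂ = 0 → PS (U (Φ f)) (φ 0) = 0 := fun f h => by
    rw [← ik hp, inner_eq_zero_symm, ad, inner_eq_zero_symm, h]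
  have xn : ∀ f, ‖X (U f)‖ = ‖adjoint Φ f‖ := fun f => by rw [eX, U.symm_apply_apply, U.norm_map]
  constructor
  · obtain ⟨P, Q, hQ, h⟩ := rat (x := Φ (k 0)) (a := U.symm (k (φ 0))) (b := U.symm (X (k (φ 0)))) fun f ha hb n => by
      rw [← U.inner_map_map, U.apply_symm_apply] at ha hb
      refine prop (N := fun _ => True) (X := Φ) (fun _ _ => trivial) (fun _ _ _ _ _ => trivial)
        (fun g _ => ps_ext fun z hz => by rw [hΦ _ z hz, ps_S _ hz, ps_S _ hz, hΦ _ z hz]; ring)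
        (fun f g _ _ => y2 f g) trivial (fun g _ => by rw [inner_eq_zero_symm, ik (by simp), ps_S _ (by simp), zero_mul])
        n f (adjoint Φ f) trivial trivial ?_ fun g _ => adjoint_inner_left _ _ _
      rw [← xn, ← U.norm_map]
      refine nle ?_
      have := x2 (U f) (U (Φ f)) (by rwa [← ik hp]) (c1 f hb)
      rwa [← ad] at this
    exact ⟨P, Q, hQ, fun z hz => by rw [← h z hz, hΦ _ z hz, ps_one hz, mul_one]⟩
  · set ω := S (k (φ 0)) - φ 0 • k (φ 0) with hω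
    have ω0 : PS ω (φ 0) = 0 := by rw [hω, ps_sub _ _ hp, ps_S _ hp, ps_smul _ _ hp, sub_self]
    obtain ⟨P, Q, hQ, h⟩ := rat (x := X ω) (a := k (φ 0)) (b := X (k (φ 0))) fun f ha hb n => by
      obtain ⟨f, rfl⟩ := U.surjective f
      refine prop (N := fun g => PS g (φ 0) = 0) (X := X) (fun g hg => by simp only [ps_S _ hp, hg, mul_zero])
        (fun t g g' h1 h2 => by simp only [ps_add _ _ hp, ps_smul _ _ hp, h1, h2, mul_zero, add_zero]) x1 x2 ω0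
        (fun g hg => ?_) n (U f) (U (Φ f)) (by rwa [← ik hp]) (c1 f hb) ?_ fun g _ => ad f g
      · rw [inner_eq_zero_symm, hω, inner_sub_left, S_inner, inner_smul_left, ik hp, ik hp, ps_S _ hp, hg]; simp
      · rw [xn, U.norm_map]
        refine nle ?_
        have := y2 f (adjoint Φ f)
        rwa [← adjoint_inner_left] at this
    refine ⟨P * (1 - Polynomial.C (conj (φ 0)) * Polynomial.X), Q * (Polynomial.X - Polynomial.C (φ 0)),
      mul_ne_zero hQ (Polynomial.X_sub_C_ne_zero _), fun z hz => ?_⟩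
    have h1 := h _ (hm z hz)
    have h2 := hX ω ω0 z hz
    have h3 := ps_k hp (hm z hz)
    rw [← eX, hω, ps_sub _ _ (hm z hz), ps_S _ (hm z hz), ps_smul _ _ (hm z hz), ← hω] at h2
    simp only [Polynomial.eval_mul, Polynomial.eval_sub, Polynomial.eval_one, Polynomial.eval_C, Polynomial.eval_X]
    linear_combination (-z * (1 - conj (φ 0) * φ z)) * h1 + Q.eval (φ z) * (1 - conj (φ 0) * φ z) * h2 +
      Q.eval (φ z) * (φ z - φ 0) * h3

open Polynomial in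
/-- a rational map with a rational left inverse is linear fractional -/
lemma lft (hd : AnalyticOnNhd ℂ φ (ball 0 1)) (nc : ¬∃ w, ∀ z ∈ ball (0 : ℂ) 1, φ z = w)
    (h1 : ∃ P Q : ℂ[X], Q ≠ 0 ∧ ∀ z : ℂ, ‖z‖ < 1 → Q.eval z * φ z = P.eval z)
    (h2 : ∃ R Q : ℂ[X], Q ≠ 0 ∧ ∀ z : ℂ, ‖z‖ < 1 → z * R.eval (φ z) = Q.eval (φ z)) :
    ∃ a b c d : ℂ, a * d - b * c ≠ 0 ∧ ∀ z : ℂ, ‖z‖ < 1 → c * z + d ≠ 0 ∧ φ z = (a * z + b) / (c * z + d) := by
  obtain ⟨P, Q, hQ, h1⟩ := h1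
  obtain ⟨R, Q', hQ', h2⟩ := h2
  have inf : {z : ℂ | ‖z‖ < 1}.Infinite := by
    simpa [mem_ball_zero_iff, ball] using infinite_of_mem_nhds (0 : ℂ) (ball_mem_nhds (0 : ℂ) one_pos)
  have pz : ∀ G : ℂ[X], (∀ z : ℂ, ‖z‖ < 1 → G.eval z = 0) → G = 0 := fun G h =>
    eq_zero_of_infinite_isRoot G (inf.mono h)
  set t : RatFunc ℂ := algebraMap _ _ P / algebraMap _ _ Q with ht
  have e1 : t.num * Q = P * t.denom := (RatFunc.num_mul_eq_mul_denom_iff hQ).2 ht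
  have pa : ∀ G : ℂ[X], AnalyticOnNhd ℂ (fun z => G.eval z) (ball 0 1) := fun G =>
    (G.differentiable.differentiableOn).analyticOnNhd isOpen_ball
  have e2 : ∀ z : ℂ, ‖z‖ < 1 → t.denom.eval z * φ z - t.num.eval z = 0 :=
    zp (pa Q) (((pa _).mul hd).sub (pa _)) (fun z hz => by
      have := congrArg (eval z) e1
      rw [eval_mul, eval_mul] at this
      linear_combination t.denom.eval z * h1 z hz - this) (by
      by_contra! h
      exact hQ (pz Q h))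
  have d0 : ∀ z : ℂ, ‖z‖ < 1 → t.denom.eval z ≠ 0 := fun z hz h => by
    obtain ⟨u, v, huv⟩ := t.isCoprime_num_denom
    have := congrArg (eval z) huv
    have h3 := e2 z hz
    rw [h, zero_mul, zero_sub, neg_eq_zero] at h3
    simp [h, h3] at this
  have e3 : ∀ z : ℂ, ‖z‖ < 1 → φ z = t.num.eval z / t.denom.eval z := fun z hz => by
    rw [eq_div_iff (d0 z hz)]; linear_combination e2 z hz
  have tc : ¬∃ c, t = RatFunc.C c := by
    rintro ⟨c, hc⟩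
    exact nc ⟨c, fun z hz => by rw [e3 z (mem_ball_zero_iff.1 hz), hc]; simp⟩
  have D0 : algebraMap ℂ[X] (RatFunc ℂ) t.denom ≠ 0 := RatFunc.algebraMap_ne_zero t.denom_ne_zero
  have hom : ∀ (G : ℂ[X]) (N : ℕ), G.natDegree < N + 1 → ∃ G' : ℂ[X],
      aeval t G * algebraMap _ _ t.denom ^ N = algebraMap _ _ G' ∧
        ∀ z : ℂ, ‖z‖ < 1 → G.eval (φ z) * t.denom.eval z ^ N = G'.eval z := by
    intro G N hN
    refine ⟨∑ i ∈ Finset.range (N + 1), C (G.coeff i) * t.num ^ i * t.denom ^ (N - i), ?_, fun z hz => ?_⟩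
    · rw [aeval_eq_sum_range' hN, Finset.sum_mul, map_sum]
      refine Finset.sum_congr rfl fun i hi => ?_
      obtain ⟨j, rfl⟩ := Nat.exists_eq_add_of_le (Nat.lt_succ_iff.1 (Finset.mem_range.1 hi))
      rw [Nat.add_sub_cancel_left, map_mul, map_mul, map_pow, map_pow, RatFunc.algebraMap_C, Algebra.smul_def,
        RatFunc.algebraMap_eq_C, (div_eq_iff D0).1 (RatFunc.num_div_denom t)]
      ring
    · rw [eval_eq_sum_range' hN, Finset.sum_mul, eval_finset_sum]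
      refine Finset.sum_congr rfl fun i hi => ?_
      obtain ⟨j, rfl⟩ := Nat.exists_eq_add_of_le (Nat.lt_succ_iff.1 (Finset.mem_range.1 hi))
      rw [Nat.add_sub_cancel_left, eval_mul, eval_mul, eval_pow, eval_pow, eval_C, ← sub_eq_zero.1 (e2 z hz)]
      ring
  obtain ⟨G1, a1, b1⟩ := hom R (R.natDegree + Q'.natDegree) (by omega)
  obtain ⟨G2, a2, b2⟩ := hom Q' (R.natDegree + Q'.natDegree) (by omega)
  have e4 : X * G1 - G2 = 0 := pz _ fun z hz => by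
    rw [eval_sub, eval_mul, eval_X, ← b1 z hz, ← b2 z hz, ← h2 z hz]; ring
  have e5 : RatFunc.X * aeval t R = aeval t Q' := by
    refine mul_right_cancel₀ (pow_ne_zero (R.natDegree + Q'.natDegree) D0) ?_
    rw [mul_assoc, a1, a2, ← sub_eq_zero.1 e4, map_mul, RatFunc.algebraMap_X]
  have q0 : aeval t Q' ≠ 0 := fun h => RatFunc.transcendental_of_ne_C t tc ⟨Q', hQ', h⟩
  have r0 : aeval t R ≠ 0 := fun h => q0 (by rw [← e5, h, mul_zero])
  have top : IntermediateField.adjoin ℂ {t} = ⊤ := by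
    rw [eq_top_iff, ← RatFunc.adjoin_X, IntermediateField.adjoin_simple_le_iff, IntermediateField.mem_adjoin_simple_iff]
    exact ⟨Q', R, by rw [eq_div_iff r0, e5]⟩
  have fr := t.finrank_eq_max_natDegree
  rw [top, IntermediateField.finrank_top] at fr
  have n1 := eq_X_add_C_of_natDegree_le_one (fr.symm ▸ le_max_left _ _ : t.num.natDegree ≤ 1)
  have n2 := eq_X_add_C_of_natDegree_le_one (fr.symm ▸ le_max_right _ _ : t.denom.natDegree ≤ 1)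
  have v1 : ∀ z, t.num.eval z = t.num.coeff 1 * z + t.num.coeff 0 := fun z => by
    conv_lhs => rw [n1]
    simp
  have v2 : ∀ z, t.denom.eval z = t.denom.coeff 1 * z + t.denom.coeff 0 := fun z => by
    conv_lhs => rw [n2]
    simp
  refine ⟨t.num.coeff 1, t.num.coeff 0, t.denom.coeff 1, t.denom.coeff 0, fun h => nc ⟨φ 0, fun z hz => ?_⟩,
    fun z hz => ⟨v2 z ▸ d0 z hz, by rw [e3 z hz, v1, v2]⟩⟩
  have hz := mem_ball_zero_iff.1 hz
  rw [e3 z hz, e3 0 (by simp), div_eq_div_iff (d0 z hz) (d0 0 (by simp)), v1, v1, v2, v2]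
  linear_combination z * h

end Pool.Agent.H.MP_4d0082_an
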